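import Mathlib

set_option autoImplicit false

/-! Consequences of the final inequality. -/

namespace Pool.Agent.EI28L

/-- `h q = (q + 1) (R - q)` against `Q (R - 1)`, `Q ^ 2 = R` -/
theorem exact {n R Q q X : ℝ} (hn : 2 < n) (hQ : 0 < Q) (hQR : Q ^ 2 = R) (hR : 1 < R)
    (hc : 2 * (n + 2) * Q ≤ (n - 2) * (R - 1)) (hq1 : 1 < q) (hqR : q ^ 2 ≤ R)
    (h : (R - 1) * (X + (q ^ 2 - 1) ^ 2) ≤ (q + 1) ^ 2 * (R - q) ^ 2 * ((n + 2) / 2)) :
    X ≤ (R - 1) * (n * R / 2 + 1) := by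
  have hqQ : q ≤ Q := by
    have : q ^ 2 ≤ Q ^ 2 := by rw [hQR]; exact hqR
    exact le_of_sq_le_sq this hQ.le
  have h1 : 4 * (R - 1) ≤ (n + 2) * (R - 1 - 2 * Q) := by linarith
  have h2 : 0 < R - 1 - 2 * Q := by
    by_contra hcon
    push Not at hcon
    have : (n + 2) * (R - 1 - 2 * Q) ≤ 0 := mul_nonpos_of_nonneg_of_nonpos (by linarith) hcon
    linarith
  -- `h(Q) + h(q) ≥ (R - 1) (Q + q)`
  have h3 : (R - 1) * (Q + q) ≤ Q * (R - 1) + (q + 1) * (R - q) := by nlinarith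
  have h4 : R - 1 - 2 * Q ≤ R - 1 - Q - q := by linarith
  have h5 : (R - 1) * (Q + q) * (R - 1 - 2 * Q) ≤
      (Q * (R - 1) + (q + 1) * (R - q)) * (R - 1 - Q - q) := by
    apply mul_le_mul h3 h4 h2.le
    have : 0 ≤ (R - 1) * (Q + q) := mul_nonneg (by linarith) (by linarith)
    linarith
  have h6 : (R - 1) * (Q + q) * (R + q ^ 2 - 2) ≤
      (n + 2) / 2 * ((Q * (R - 1) + (q + 1) * (R - q)) * (R - 1 - Q - q)) := by
    have h7 : (R - 1) * (Q + q) * (R + q ^ 2 - 2) ≤ (R - 1) * (Q + q) * (2 * (R - 1)) :=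
      mul_le_mul_of_nonneg_left (by linarith) (mul_nonneg (by linarith) (by linarith))
    have h8 : (R - 1) * (Q + q) * (2 * (R - 1)) ≤
        (R - 1) * (Q + q) * ((n + 2) / 2 * (R - 1 - 2 * Q)) :=
      mul_le_mul_of_nonneg_left (by linarith) (mul_nonneg (by linarith) (by linarith))
    have h9 : (n + 2) / 2 * ((R - 1) * (Q + q) * (R - 1 - 2 * Q)) ≤
      (n + 2) / 2 * ((Q * (R - 1) + (q + 1) * (R - q)) * (R - 1 - Q - q)) :=
      mul_le_mul_of_nonneg_left h5 (by linarith)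
    calc _ ≤ _ := h7
      _ ≤ _ := h8
      _ = (n + 2) / 2 * ((R - 1) * (Q + q) * (R - 1 - 2 * Q)) := by ring
      _ ≤ _ := h9
  have h7 : (Q - q) * ((R - 1) * (Q + q) * (R + q ^ 2 - 2)) ≤
      (Q - q) * ((n + 2) / 2 * ((Q * (R - 1) + (q + 1) * (R - q)) * (R - 1 - Q - q))) :=
    mul_le_mul_of_nonneg_left h6 (by linarith)
  have e1 : (Q - q) * ((R - 1) * (Q + q) * (R + q ^ 2 - 2))
      = (R - 1) * ((R - 1) ^ 2 - (q ^ 2 - 1) ^ 2) := by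
    rw [← hQR]; ring
  have e2 : (Q - q) * ((n + 2) / 2 * ((Q * (R - 1) + (q + 1) * (R - q)) * (R - 1 - Q - q)))
      = (n + 2) / 2 * (R * (R - 1) ^ 2 - (q + 1) ^ 2 * (R - q) ^ 2) := by
    rw [← hQR]; ring
  rw [e1, e2] at h7
  have h8 : (R - 1) * X ≤ (R - 1) * ((R - 1) * (n * R / 2 + 1)) := by
    have e3 : (R - 1) * ((R - 1) * (n * R / 2 + 1)) =
      (n + 2) / 2 * (R * (R - 1) ^ 2) - (R - 1) * (R - 1) ^ 2 := by ring
    rw [e3]
    linarith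
  exact le_of_mul_le_mul_left h8 (by linarith)

theorem small {n R q X : ℝ} (hn : 0 < n) (hR : 1 < R) (hR3 : R ≤ 3) (hq1 : 1 < q)
    (hqR : q ^ 2 ≤ R)
    (h : (R - 1) * (X + (q ^ 2 - 1) ^ 2) ≤ (q + 1) ^ 2 * (R - q) ^ 2 * ((n + 2) / 2)) :
    X ≤ 2 * (n + 2) * (R - 1) := by
  have hqlt : q < R := by nlinarith
  have h1 : (q + 1) * (R - q) ≤ 2 * (R - 1) := by nlinarith
  have h0 : 0 ≤ (q + 1) * (R - q) := mul_nonneg (by linarith) (by linarith)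
  have h2 : (q + 1) ^ 2 * (R - q) ^ 2 ≤ (2 * (R - 1)) ^ 2 := by
    rw [← mul_pow]
    exact pow_le_pow_left₀ h0 h1 2
  have h3 : (R - 1) * X ≤ (R - 1) * (2 * (n + 2) * (R - 1)) := by
    have h4 : (q + 1) ^ 2 * (R - q) ^ 2 * ((n + 2) / 2) ≤ (2 * (R - 1)) ^ 2 * ((n + 2) / 2) :=
      mul_le_mul_of_nonneg_right h2 (by linarith)
    have h5 : 0 ≤ (R - 1) * (q ^ 2 - 1) ^ 2 := mul_nonneg (by linarith) (sq_nonneg _)
    nlinarith
  exact le_of_mul_le_mul_left h3 (by linarith)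

theorem large {n R q X : ℝ} (hn : 0 < n) (hR3 : 3 ≤ R) (hq1 : 1 < q)
    (hqR : q ^ 2 ≤ R)
    (h : (R - 1) * (X + (q ^ 2 - 1) ^ 2) ≤ (q + 1) ^ 2 * (R - q) ^ 2 * ((n + 2) / 2)) :
    X ≤ (n + 2) * (R ^ 2 - 1) / 2 := by
  have hqlt : q < R := by nlinarith
  have h0 : 0 ≤ (q + 1) * (R - q) := mul_nonneg (by linarith) (by linarith)
  have h2 : (q + 1) ^ 2 * (R - q) ^ 2 ≤ (R + 1) * (R - 1) ^ 2 := by
    rw [← mul_pow]
    rcases le_total R 9 with h9 | h9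
    · have h1 : (q + 1) * (R - q) ≤ (R + 1) ^ 2 / 4 := by nlinarith [sq_nonneg (2 * q - (R - 1))]
      have h3 : ((q + 1) * (R - q)) ^ 2 ≤ ((R + 1) ^ 2 / 4) ^ 2 := pow_le_pow_left₀ h0 h1 2
      have h4 : (R + 1) ^ 3 ≤ 16 * (R - 1) ^ 2 := by
        nlinarith [mul_nonneg (sub_nonneg.mpr hR3) (sub_nonneg.mpr h9),
          mul_nonneg (mul_nonneg (sub_nonneg.mpr hR3) (sub_nonneg.mpr h9)) (by linarith : 0 ≤ R)]
      have h5 : ((R + 1) ^ 2 / 4) ^ 2 = (R + 1) * (R + 1) ^ 3 / 16 := by ring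
      rw [h5] at h3
      have h6 : (R + 1) * (R + 1) ^ 3 ≤ (R + 1) * (16 * (R - 1) ^ 2) :=
        mul_le_mul_of_nonneg_left h4 (by linarith)
      linarith
    · set Q := Real.sqrt R with hQ
      have hQR : Q ^ 2 = R := Real.sq_sqrt (by linarith)
      have hQ0 : 0 ≤ Q := Real.sqrt_nonneg _
      have hQ3 : 3 ≤ Q := by
        apply Real.le_sqrt_of_sq_le
        linarith
      have hqQ : q ≤ Q := Real.le_sqrt_of_sq_le hqR
      have h1 : (q + 1) * (R - q) ≤ Q * (R - 1) := by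
        have : 0 ≤ (Q - q) * (R - 1 - Q - q) := by
          apply mul_nonneg (by linarith)
          nlinarith
        nlinarith
      have h3 := pow_le_pow_left₀ h0 h1 2
      rw [mul_pow Q, hQR] at h3
      nlinarith [sq_nonneg (R - 1)]
  have h3 : (R - 1) * X ≤ (R - 1) * ((n + 2) * (R ^ 2 - 1) / 2) := by
    have h4 : (q + 1) ^ 2 * (R - q) ^ 2 * ((n + 2) / 2) ≤
        (R + 1) * (R - 1) ^ 2 * ((n + 2) / 2) :=
      mul_le_mul_of_nonneg_right h2 (by linarith)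
    have h5 : 0 ≤ (R - 1) * (q ^ 2 - 1) ^ 2 := mul_nonneg (by linarith) (sq_nonneg _)
    have e : (R - 1) * ((n + 2) * (R ^ 2 - 1) / 2) = (R + 1) * (R - 1) ^ 2 * ((n + 2) / 2) := by
      ring
    rw [e]
    linarith
  exact le_of_mul_le_mul_left h3 (by linarith)

end Pool.Agent.EI28L
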