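import Pool.Agent.EI28L.StarReal

set_option autoImplicit false

/-! The real data of a configuration used for the linear threshold. -/

namespace Pool.Agent.EI28L

open Matrix Finset Pool.Agent.EI28

/-- `s` are the eigenvalues of the sum of the projections divided by `1 + (p - 1) lam`. -/
structure LData (m : Type*) [Fintype m] (n p : ℝ) (s : m → ℝ) : Prop where
  nonneg : ∀ a, 0 ≤ s a
  sq : ∑ a, s a ^ 2 = ∑ a, s a
  gt : n < ∑ a, s a
  top : ∀ a, n * s a ^ 2 ≤ ∑ b, s b
  star : ((∑ a, s a) ^ 2 - n * ∑ a, s a ^ 4) * ((p - 1) * n ^ 2 + ((∑ a, s a) - n) ^ 2)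
      ≤ (∑ a, s a) ^ 2 * ((∑ a, s a) - n) ^ 2 * ((n + 2) / 2)

variable {m ι : Type*} [Fintype m] [DecidableEq m] [Fintype ι] [DecidableEq ι]

theorem _root_.Pool.Agent.EI28.MCfg.toLData {n lam : ℝ} {P : ι → Matrix m m ℝ}
    (h : MCfg n lam P) (hn : 1 ≤ n) (hl0 : 0 ≤ lam) (hl : lam < 1) (hp : 2 ≤ Fintype.card ι)
    {mu : m → ℝ} (hS : ∑ j, P j = diagonal mu) :
    LData m n (Fintype.card ι) (fun a => mu a / kap ι lam) := by
  have hn0 : 0 < n := by linarith
  have hp2 : (2 : ℝ) ≤ Fintype.card ι := by exact_mod_cast hp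
  have hk1 : 1 ≤ kap ι lam := by
    unfold kap
    have : 0 ≤ ((Fintype.card ι : ℝ) - 1) * lam := mul_nonneg (by linarith) hl0
    linarith
  have hk0 : 0 < kap ι lam := by linarith
  have hsymm : ∀ j a b, P j a b = P j b a := fun j a b => by
    conv_lhs => rw [← h.sym j]
    rfl
  have hdiag : ∀ j a, P j a a = ∑ b, P j a b ^ 2 := by
    intro j a
    conv_lhs => rw [← h.idem j]
    rw [mul_apply]
    exact sum_congr rfl fun b _ => by rw [hsymm j b a]; ring
  have hd0 : ∀ j a, 0 ≤ P j a a := fun j a => by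
    rw [hdiag]
    exact sum_nonneg fun b _ => sq_nonneg _
  have hmu : ∀ a, mu a = ∑ j, P j a a := by
    intro a
    have := congrFun (congrFun hS a) a
    rw [diagonal_apply_eq, Matrix.sum_apply] at this
    exact this.symm
  have hmu0 : ∀ a, 0 ≤ mu a := fun a => by
    rw [hmu]
    exact sum_nonneg fun j _ => hd0 j a
  have htr : ∑ a, mu a = n * Fintype.card ι := by
    rw [← h.trS, hS, trace_diagonal]
  have htr2 : ∑ a, mu a ^ 2 = n * Fintype.card ι * kap ι lam := by
    rw [← h.trSS, hS, diagonal_mul_diagonal, trace_diagonal]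
    exact sum_congr rfl fun a _ => by ring
  have htr4 : ∑ a, mu a ^ 4 =
      trace ((∑ j, P j) * (∑ j, P j) * (∑ j, P j) * ∑ j, P j) := by
    rw [hS, diagonal_mul_diagonal, diagonal_mul_diagonal, diagonal_mul_diagonal, trace_diagonal]
    exact sum_congr rfl fun a _ => by ring
  have hs1 : ∑ a, mu a / kap ι lam = n * Fintype.card ι / kap ι lam := by
    rw [← sum_div, htr]
  have hs2 : ∑ a, (mu a / kap ι lam) ^ 2 = n * Fintype.card ι / kap ι lam := by
    have : ∀ a, (mu a / kap ι lam) ^ 2 = mu a ^ 2 / kap ι lam ^ 2 := fun a => by rw [div_pow]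
    simp only [this]
    rw [← sum_div, htr2]
    field_simp
  have hs4 : kap ι lam ^ 4 * ∑ a, (mu a / kap ι lam) ^ 4 = ∑ a, mu a ^ 4 := by
    rw [mul_sum]
    exact sum_congr rfl fun a _ => by field_simp
  have htop : ∀ a, mu a ^ 2 ≤ Fintype.card ι * kap ι lam := by
    intro a
    have hj : ∀ j, mu a * P j a a ≤ kap ι lam := by
      intro j
      have e1 : (P j * (∑ i, P i) * P j) a a = kap ι lam * P j a a := by
        rw [h.PSP, Matrix.smul_apply, smul_eq_mul]
      have e2 : (P j * (∑ i, P i) * P j) a a = ∑ b, mu b * P j a b ^ 2 := by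
        rw [hS, mul_apply]
        refine sum_congr rfl fun b _ => ?_
        rw [mul_diagonal, hsymm j b a]; ring
      have e3 : mu a * P j a a ^ 2 ≤ ∑ b, mu b * P j a b ^ 2 :=
        single_le_sum (f := fun b => mu b * P j a b ^ 2)
          (fun b _ => mul_nonneg (hmu0 b) (sq_nonneg _)) (mem_univ a)
      rcases (hd0 j a).eq_or_lt with h0 | h0
      · rw [← h0]; linarith
      · rw [← e2, e1] at e3
        have : (mu a * P j a a) * P j a a ≤ kap ι lam * P j a a := by nlinarith
        exact le_of_mul_le_mul_right this h0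
    calc mu a ^ 2 = ∑ j, mu a * P j a a := by rw [← mul_sum, ← hmu]; ring
      _ ≤ ∑ _j : ι, kap ι lam := sum_le_sum fun j _ => hj j
      _ = _ := by rw [sum_const, card_univ, nsmul_eq_mul]
  have hst := star_real (n := n) (p := Fintype.card ι) (k := kap ι lam)
    (q := 1 + ((Fintype.card ι : ℝ) - 1) * lam ^ 2) (lam := lam)
    (ρ := n * Fintype.card ι / kap ι lam) (M := ∑ a, (mu a / kap ι lam) ^ 4)
    hn hp2 hl0 hl rfl rfl (by field_simp) (by
      rw [hs4, htr4]
      refine opt hn0 hp2 hl hk0 rfl rfl ?_ ?_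
      · have : 0 ≤ ((Fintype.card ι : ℝ) - 1) * lam ^ 2 := mul_nonneg (by linarith) (sq_nonneg _)
        linarith
      · intro g t d
        exact h.tensor_sq g t d)
  refine ⟨fun a => div_nonneg (hmu0 a) hk0.le, ?_, ?_, ?_, ?_⟩
  · rw [hs1, hs2]
  · rw [hs1]; exact hst.1
  · intro a
    rw [hs1, div_pow]
    rw [← mul_div_assoc, div_le_div_iff₀ (by positivity) hk0]
    have := htop a
    have h2 : n * kap ι lam * mu a ^ 2 ≤ n * kap ι lam * (Fintype.card ι * kap ι lam) :=
      mul_le_mul_of_nonneg_left this (by positivity)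
    nlinarith
  · rw [hs1]; exact hst.2

end Pool.Agent.EI28L
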