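import Pool.Agent.EI28L.StarXi

set_option autoImplicit false
set_option linter.unusedSectionVars false

/-! The inequality STAR with two extra parameters for configurations. -/

namespace Pool.Agent.EI28L

open Matrix Finset Pool.Agent.EI28

/-- `LData` with the family of inequalities in `ze`, `xi`. -/
structure XData (m : Type*) [Fintype m] (n p : ℝ) (s : m → ℝ) : Prop where
  base : LData m n p s
  star2 : ∀ ze xi : ℝ,
    (3 * ((∑ a, s a) ^ 2 - n * ∑ a, s a ^ 4)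
      + n * (4 * ((2 * ze + xi) * (∑ a, s a ^ 4 - ∑ a, s a ^ 3)
          - xi * (∑ a, s a ^ 3 - ∑ a, s a))
        - ((2 * ze + xi) ^ 2 * (∑ a, s a ^ 4 - 2 * ∑ a, s a ^ 3 + ∑ a, s a)
          - 2 * (2 * ze + xi) * xi * (∑ a, s a ^ 3 - ∑ a, s a)
          + xi ^ 2 * ((Fintype.card m : ℝ) - ∑ a, s a))
        - 2 * ze ^ 2 * (∑ a, s a) * ((Fintype.card m : ℝ) - ∑ a, s a)
        - xi ^ 2 * ((Fintype.card m : ℝ) - ∑ a, s a) ^ 2))
      * ((p - 1) * n ^ 2 + ((∑ a, s a) - n) ^ 2)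
      ≤ 3 * ((∑ a, s a) ^ 2 * ((∑ a, s a) - n) ^ 2 * ((n + 2) / 2))

variable {m ι : Type*} [Fintype m] [DecidableEq m] [Fintype ι] [DecidableEq ι]

theorem star2_aux {n lam : ℝ} {P : ι → Matrix m m ℝ}
    (h : MCfg n lam P) (hn : 1 ≤ n) (hl0 : 0 ≤ lam) (hl : lam < 1) (hp : 2 ≤ Fintype.card ι)
    {s : m → ℝ} (hS : ∑ j, P j = diagonal (fun a => kap ι lam * s a))
    (hsq : ∑ a, s a ^ 2 = ∑ a, s a) (hgt : n < ∑ a, s a) (ze xi : ℝ) :
    (3 * ((∑ a, s a) ^ 2 - n * ∑ a, s a ^ 4)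
      + n * (4 * ((2 * ze + xi) * (∑ a, s a ^ 4 - ∑ a, s a ^ 3)
          - xi * (∑ a, s a ^ 3 - ∑ a, s a))
        - ((2 * ze + xi) ^ 2 * (∑ a, s a ^ 4 - 2 * ∑ a, s a ^ 3 + ∑ a, s a)
          - 2 * (2 * ze + xi) * xi * (∑ a, s a ^ 3 - ∑ a, s a)
          + xi ^ 2 * ((Fintype.card m : ℝ) - ∑ a, s a))
        - 2 * ze ^ 2 * (∑ a, s a) * ((Fintype.card m : ℝ) - ∑ a, s a)
        - xi ^ 2 * ((Fintype.card m : ℝ) - ∑ a, s a) ^ 2))
      * (((Fintype.card ι : ℝ) - 1) * n ^ 2 + ((∑ a, s a) - n) ^ 2)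
      ≤ 3 * ((∑ a, s a) ^ 2 * ((∑ a, s a) - n) ^ 2 * ((n + 2) / 2)) := by
  have hn0 : 0 < n := by linarith
  have hp2 : (2 : ℝ) ≤ Fintype.card ι := by exact_mod_cast hp
  have hk1 : 1 ≤ kap ι lam := by
    unfold kap
    have : 0 ≤ ((Fintype.card ι : ℝ) - 1) * lam := mul_nonneg (by linarith) hl0
    linarith
  have hk0 : 0 < kap ι lam := by linarith
  -- three matrices
  set A : Matrix m m ℝ := diagonal s with hA
  set B : Matrix m m ℝ := diagonal (fun _ => (1 : ℝ)) with hB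
  set U : Matrix m m ℝ := diagonal (fun a => s a - 1) with hU
  have hAs : Aᵀ = A := diagonal_transpose _
  have hBs : Bᵀ = B := diagonal_transpose _
  have hUs : Uᵀ = U := diagonal_transpose _
  have hB1 : B = 1 := by rw [hB]; exact diagonal_one
  have hAk : A = (kap ι lam)⁻¹ • ∑ j, P j := by
    rw [hS, ← diagonal_smul, hA]
    congr 1
    funext a
    show s a = (kap ι lam)⁻¹ * (kap ι lam * s a)
    field_simp
  have hUAB : U = A - B := by
    rw [hU, hA, hB, diagonal_sub]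
  have hPA : ∀ j, P j * A * P j = P j := by
    intro j
    rw [hAk, Matrix.mul_smul, Matrix.smul_mul, h.PSP, smul_smul, inv_mul_cancel₀ hk0.ne', one_smul]
  have hPB : ∀ j, P j * B * P j = P j := by
    intro j
    rw [hB1, Matrix.mul_one, h.idem]
  have hPU : ∀ j, P j * U * P j = 0 := by
    intro j
    rw [hUAB, Matrix.mul_sub, Matrix.sub_mul, hPA, hPB, sub_self]
  have tr1 : ∀ (X : Matrix m m ℝ) (c : ℝ), (∀ j, P j * X * P j = c • P j) → ∀ j,
      trace (X * P j) = c * n := by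
    intro X c hX j
    have : trace (X * P j) = trace (P j * X * P j) := by
      rw [trace_mul_cycle, h.idem, trace_mul_comm]
    rw [this, hX, trace_smul, h.tr, smul_eq_mul]
  have tr2 : ∀ (X : Matrix m m ℝ) (c : ℝ), (∀ j, P j * X * P j = c • P j) → ∀ j,
      trace (X * P j * X * P j) = c ^ 2 * n := by
    intro X c hX j
    rw [mul_assoc, mul_assoc, ← mul_assoc (P j), hX, mul_smul_comm, trace_smul, tr1 X c hX,
      smul_eq_mul]
    ring
  have hPA' : ∀ j, P j * A * P j = (1 : ℝ) • P j := fun j => by rw [hPA, one_smul]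
  have hPB' : ∀ j, P j * B * P j = (1 : ℝ) • P j := fun j => by rw [hPB, one_smul]
  have hPU' : ∀ j, P j * U * P j = (0 : ℝ) • P j := fun j => by rw [hPU, zero_smul]
  have s1 : ∀ (X : Matrix m m ℝ) (c : ℝ), Xᵀ = X → (∀ j, P j * X * P j = c • P j) →
      sig X ⬝ᵥ ∑ j, sig (P j) = c ^ 2 * (Fintype.card ι * ((n ^ 2 + n) / 2)) := by
    intro X c hXs hX
    rw [dotProduct_sum]
    have : ∀ j, sig X ⬝ᵥ sig (P j) = c ^ 2 * ((n ^ 2 + n) / 2) := by
      intro j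
      rw [sig_sig _ _ hXs (h.sym j), tr1 X c hX, tr2 X c hX]
      ring
    simp only [this, sum_const, card_univ, nsmul_eq_mul]
    ring
  have s2 : ∀ (X : Matrix m m ℝ) (c : ℝ), Xᵀ = X → (∀ j, P j * X * P j = c • P j) →
      sig X ⬝ᵥ ∑ j, tau (P j) = c ^ 2 * (Fintype.card ι * n) := by
    intro X c hXs hX
    rw [dotProduct_sum]
    have : ∀ j, sig X ⬝ᵥ tau (P j) = c ^ 2 * n := by
      intro j
      rw [sig_tau _ _ hXs (h.sym j), tr2 X c hX]
    simp only [this, sum_const, card_univ, nsmul_eq_mul]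
    ring
  have s3 : ∀ f : m → ℝ, sig (diagonal f) ⬝ᵥ tau (∑ j, P j) =
      kap ι lam ^ 2 * ∑ a, s a ^ 2 * f a ^ 2 := by
    intro f
    rw [sig_tau _ _ (diagonal_transpose _) h.Ssym, hS]
    simp only [diagonal_mul_diagonal, trace_diagonal]
    rw [mul_sum]
    refine sum_congr rfl fun a _ => ?_
    ring
  have s4 : ∀ f g : m → ℝ, sig (diagonal f) ⬝ᵥ sig (diagonal g) = ((∑ a, f a * g a) ^ 2 +
      ∑ a, f a ^ 2 * g a ^ 2) / 2 := by
    intro f g
    rw [sig_sig _ _ (diagonal_transpose _) (diagonal_transpose _)]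
    simp only [diagonal_mul_diagonal, trace_diagonal]
    congr 2
    refine sum_congr rfl fun a _ => ?_
    ring
  set ρ := ∑ a, s a with hρ
  set M3 := ∑ a, s a ^ 3 with hM3
  set M4 := ∑ a, s a ^ 4 with hM4
  set r : ℝ := (Fintype.card m : ℝ) with hr
  -- moments
  have m1 : ∑ a, s a * s a = ρ := by
    rw [← hsq]; exact sum_congr rfl fun a _ => by ring
  have m2 : ∑ a, s a * (1 : ℝ) = ρ := by simp [hρ]
  have m3 : ∑ a, s a * (s a - 1) = 0 := by
    have : ∀ a, s a * (s a - 1) = s a ^ 2 - s a := fun a => by ring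
    simp only [this, sum_sub_distrib, hsq]
    rw [← hρ, sub_self]
  have m4 : ∑ a : m, (1 : ℝ) * 1 = r := by simp [hr]
  have m5 : ∑ a, (1 : ℝ) * (s a - 1) = ρ - r := by
    simp [sum_sub_distrib, hρ, hr]
  have m6 : ∑ a, (s a - 1) * (s a - 1) = r - ρ := by
    have : ∀ a, (s a - 1) * (s a - 1) = s a ^ 2 - 2 * s a + 1 := fun a => by ring
    simp only [this, sum_add_distrib, sum_sub_distrib, ← mul_sum, hsq, sum_const, card_univ,
      nsmul_eq_mul, mul_one, ← hr]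
    ring
  have q1 : ∑ a, s a ^ 2 * s a ^ 2 = M4 := by
    rw [hM4]; exact sum_congr rfl fun a _ => by ring
  have q2 : ∑ a, s a ^ 2 * (1 : ℝ) ^ 2 = ρ := by
    rw [← hsq]; exact sum_congr rfl fun a _ => by ring
  have q3 : ∑ a, s a ^ 2 * (s a - 1) ^ 2 = M4 - 2 * M3 + ρ := by
    have : ∀ a, s a ^ 2 * (s a - 1) ^ 2 = s a ^ 4 - 2 * s a ^ 3 + s a ^ 2 := fun a => by ring
    simp only [this, sum_add_distrib, sum_sub_distrib, ← mul_sum, hsq]
    rfl
  have q4 : ∑ a : m, (1 : ℝ) ^ 2 * 1 ^ 2 = r := by simp [hr]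
  have q5 : ∑ a, (1 : ℝ) ^ 2 * (s a - 1) ^ 2 = r - ρ := by
    rw [← m6]; exact sum_congr rfl fun a _ => by ring
  have q6 : ∑ a, (s a - 1) ^ 2 * (s a - 1) ^ 2 = M4 - 4 * M3 + 2 * ρ + r := by
    have : ∀ a, (s a - 1) ^ 2 * (s a - 1) ^ 2 = s a ^ 4 - 4 * s a ^ 3 + 6 * s a ^ 2
      - 4 * s a + 1 := fun a => by ring
    simp only [this, sum_add_distrib, sum_sub_distrib, ← mul_sum, hsq, sum_const, card_univ,
      nsmul_eq_mul, mul_one, ← hr]
    rw [← hM3, ← hM4]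
    ring
  set K0 := (1 - ze) • sig A + ze • sig B - (ze + xi) • sig U with hK0
  have g1 : K0 ⬝ᵥ ∑ j, sig (P j) = Fintype.card ι * ((n ^ 2 + n) / 2) := by
    rw [hK0]
    simp only [add_dotProduct, sub_dotProduct, smul_dotProduct, s1 A 1 hAs hPA',
      s1 B 1 hBs hPB', s1 U 0 hUs hPU', smul_eq_mul]
    ring
  have g2 : K0 ⬝ᵥ ∑ j, tau (P j) = Fintype.card ι * n := by
    rw [hK0]
    simp only [add_dotProduct, sub_dotProduct, smul_dotProduct, s2 A 1 hAs hPA',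
      s2 B 1 hBs hPB', s2 U 0 hUs hPU', smul_eq_mul]
    ring
  have g3 : K0 ⬝ᵥ tau (∑ j, P j) = kap ι lam ^ 2 * (M4
      - ((2 * ze + xi) * (M4 - M3) - xi * (M3 - ρ))) := by
    rw [hK0, hA, hB, hU]
    simp only [add_dotProduct, sub_dotProduct, smul_dotProduct, s3, smul_eq_mul, q1, q2, q3]
    ring
  have g4 : K0 ⬝ᵥ K0 = (1 - ze) ^ 2 * ((ρ ^ 2 + M4) / 2) + ze ^ 2 * ((r ^ 2 + r) / 2)
      + (ze + xi) ^ 2 * (((r - ρ) ^ 2 + (M4 - 4 * M3 + 2 * ρ + r)) / 2)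
      + 2 * (1 - ze) * ze * ((ρ ^ 2 + ρ) / 2)
      - 2 * (1 - ze) * (ze + xi) * ((M4 - 2 * M3 + ρ) / 2)
      - 2 * ze * (ze + xi) * (((ρ - r) ^ 2 + (r - ρ)) / 2) := by
    have c1 := dotProduct_comm (sig B) (sig A)
    have c2 := dotProduct_comm (sig U) (sig A)
    have c3 := dotProduct_comm (sig U) (sig B)
    have AA : sig A ⬝ᵥ sig A = (ρ ^ 2 + M4) / 2 := by rw [hA, s4, m1, q1]
    have AB : sig A ⬝ᵥ sig B = (ρ ^ 2 + ρ) / 2 := by rw [hA, hB, s4, m2, q2]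
    have AU : sig A ⬝ᵥ sig U = (M4 - 2 * M3 + ρ) / 2 := by rw [hA, hU, s4, m3, q3]; ring
    have BB : sig B ⬝ᵥ sig B = (r ^ 2 + r) / 2 := by rw [hB, s4, m4, q4]
    have BU : sig B ⬝ᵥ sig U = ((ρ - r) ^ 2 + (r - ρ)) / 2 := by rw [hB, hU, s4, m5, q5]
    have UU : sig U ⬝ᵥ sig U = ((r - ρ) ^ 2 + (M4 - 4 * M3 + 2 * ρ + r)) / 2 := by
      rw [hU, s4, m6, q6]
    rw [hK0]
    simp only [add_dotProduct, sub_dotProduct, smul_dotProduct, dotProduct_add, dotProduct_sub,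
      dotProduct_smul, smul_eq_mul, c1, c2, c3, AA, AB, AU, BB, BU, UU]
    ring
  have hrho : ρ * kap ι lam = n * Fintype.card ι := by
    have := h.trS
    rw [hS, trace_diagonal, ← mul_sum] at this
    linarith
  have hopt := optK (n := n) (p := Fintype.card ι) (k := kap ι lam)
    (q := 1 + ((Fintype.card ι : ℝ) - 1) * lam ^ 2) (lam := lam)
    (M := M4 - ((2 * ze + xi) * (M4 - M3) - xi * (M3 - ρ))) (K := K0 ⬝ᵥ K0)
    hn0 hp2 hl hk0 rfl rfl (by
      have : 0 ≤ ((Fintype.card ι : ℝ) - 1) * lam ^ 2 := mul_nonneg (by linarith) (sq_nonneg _)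
      linarith) (by
      intro g t d
      have := h.tensor_sq' K0 g t d
      rw [g1, g2, g3] at this
      exact this)
  have hfin := starK_real hn hp2 hl0 hl rfl rfl hrho hgt hopt
  rw [g4] at hfin
  refine le_trans (le_of_eq ?_) hfin
  ring

theorem _root_.Pool.Agent.EI28.MCfg.toXData {n lam : ℝ} {P : ι → Matrix m m ℝ}
    (h : MCfg n lam P) (hn : 1 ≤ n) (hl0 : 0 ≤ lam) (hl : lam < 1) (hp : 2 ≤ Fintype.card ι)
    {mu : m → ℝ} (hS : ∑ j, P j = diagonal mu) :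
    XData m n (Fintype.card ι) (fun a => mu a / kap ι lam) := by
  have hp2 : (2 : ℝ) ≤ Fintype.card ι := by exact_mod_cast hp
  have hk1 : 1 ≤ kap ι lam := by
    unfold kap
    have : 0 ≤ ((Fintype.card ι : ℝ) - 1) * lam := mul_nonneg (by linarith) hl0
    linarith
  have hk0 : 0 < kap ι lam := by linarith
  have hb := h.toLData hn hl0 hl hp hS
  refine ⟨hb, fun ze xi => ?_⟩
  exact star2_aux h hn hl0 hl hp (s := fun a => mu a / kap ι lam) (by
    rw [hS]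
    congr 1
    funext a
    field_simp) hb.sq hb.gt ze xi

end Pool.Agent.EI28L
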