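import Pool.Agent.EI28L.Data

set_option autoImplicit false

/-! The inequality in `q` and `R`. -/

namespace Pool.Agent.EI28L

open Finset

theorem spec {m : Type*} [Fintype m] {s : m → ℝ} {q sg : ℝ} (hs : ∀ a, 0 ≤ s a)
    (hq : ∀ a, s a ≤ q) (hsg : 0 ≤ sg) (h2 : ∑ a, s a ^ 2 = ∑ a, s a) :
    ∑ a, s a ^ 4 - 2 * sg ^ 2 * (∑ a, s a) + Fintype.card m * sg ^ 4
      ≤ (q + sg) ^ 2 * ((∑ a, s a) - 2 * sg * (∑ a, s a) + Fintype.card m * sg ^ 2) := by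
  have h : ∑ a, (s a ^ 2 - sg ^ 2) ^ 2 ≤ ∑ a, (q + sg) ^ 2 * (s a - sg) ^ 2 := by
    refine sum_le_sum fun a _ => ?_
    have h1 : (s a ^ 2 - sg ^ 2) ^ 2 = (s a + sg) ^ 2 * (s a - sg) ^ 2 := by ring
    rw [h1]
    apply mul_le_mul_of_nonneg_right _ (sq_nonneg _)
    have := hs a
    have := hq a
    exact pow_le_pow_left₀ (by linarith) (by linarith) 2
  have e1 : ∑ a, (s a ^ 2 - sg ^ 2) ^ 2
      = ∑ a, s a ^ 4 - 2 * sg ^ 2 * (∑ a, s a) + Fintype.card m * sg ^ 4 := by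
    have : ∀ a, (s a ^ 2 - sg ^ 2) ^ 2 = s a ^ 4 - 2 * sg ^ 2 * s a ^ 2 + sg ^ 4 :=
      fun a => by ring
    simp only [this, sum_add_distrib, sum_sub_distrib, ← mul_sum, h2, sum_const, card_univ,
      nsmul_eq_mul]
  have e2 : ∑ a, (q + sg) ^ 2 * (s a - sg) ^ 2
      = (q + sg) ^ 2 * ((∑ a, s a) - 2 * sg * (∑ a, s a) + Fintype.card m * sg ^ 2) := by
    rw [← mul_sum]
    congr 1
    have : ∀ a, (s a - sg) ^ 2 = s a ^ 2 - 2 * sg * s a + sg ^ 2 := fun a => by ring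
    simp only [this, sum_add_distrib, sum_sub_distrib, ← mul_sum, h2, sum_const, card_univ,
      nsmul_eq_mul]
  rw [e1, e2] at h
  exact h

/-- the final inequality in `q` and `R` -/
theorem LData.fin {m : Type*} [Fintype m] {n p : ℝ} {s : m → ℝ} (h : LData m n p s)
    (hn : 0 < n) (hp : 1 ≤ p) :
    ∃ q : ℝ, 1 < q ∧ q ^ 2 ≤ (Fintype.card m : ℝ) / n ∧
      ((Fintype.card m : ℝ) / n - 1) * (p - 1 + (q ^ 2 - 1) ^ 2) ≤
        (q + 1) ^ 2 * ((Fintype.card m : ℝ) / n - q) ^ 2 * ((n + 2) / 2) := by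
  set ρ := ∑ a, s a with hρ
  have hρn : n < ρ := h.gt
  have hρ0 : 0 < ρ := by linarith
  set r : ℝ := (Fintype.card m : ℝ) with hr
  have hρr : ρ ≤ r := by
    have h1 : (∑ a, s a) ^ 2 ≤ Fintype.card m * ∑ a, s a ^ 2 := by
      have := sq_sum_le_card_mul_sum_sq (s := (univ : Finset m)) (f := s)
      rwa [card_univ] at this
    rw [h.sq, ← hρ] at h1
    have h2 : ρ * ρ ≤ r * ρ := by rw [hr]; nlinarith
    exact le_of_mul_le_mul_right h2 hρ0
  set R : ℝ := r / n with hR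
  have hrR : r = n * R := by rw [hR]; field_simp
  set q := Real.sqrt (ρ / n) with hq
  have hq2 : q ^ 2 = ρ / n := Real.sq_sqrt (by positivity)
  have hnq : n * q ^ 2 = ρ := by rw [hq2]; field_simp
  have hq1 : 1 < q := by
    rw [hq]
    apply Real.lt_sqrt_of_sq_lt
    rw [one_pow, lt_div_iff₀ hn]
    linarith
  have hqR : q ^ 2 ≤ R := by
    rw [hq2, hR]
    exact div_le_div_of_nonneg_right hρr hn.le
  have hqlt : q < R := by nlinarith
  have htop : ∀ a, s a ≤ q := by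
    intro a
    have h1 := h.top a
    rw [← hρ, ← hnq] at h1
    have h2 : s a ^ 2 ≤ q ^ 2 := le_of_mul_le_mul_left h1 hn
    exact le_of_sq_le_sq h2 (by linarith)
  refine ⟨q, hq1, hqR, ?_⟩
  have hRq : 0 < R - q := by linarith
  have hRq' : R - q ≠ 0 := hRq.ne'
  set sg := q * (q - 1) / (R - q) with hsg
  have hsg0 : 0 ≤ sg := by
    rw [hsg]
    exact div_nonneg (mul_nonneg (by linarith) (by linarith)) hRq.le
  have hsp := spec h.nonneg htop hsg0 h.sq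
  rw [← hρ, ← hr, hrR, ← hnq] at hsp
  set M := ∑ a, s a ^ 4 with hM
  -- `M ≤ n q ^ 4 (1 - om0)`
  have hM1 : M ≤ n * (q ^ 4 * (1 - (q - 1) ^ 2 * (R - 1) / (R - q) ^ 2)) := by
    have e : (q + sg) ^ 2 * (n * q ^ 2 - 2 * sg * (n * q ^ 2) + n * R * sg ^ 2)
        + 2 * sg ^ 2 * (n * q ^ 2) - n * R * sg ^ 4
        = n * (q ^ 4 * (1 - (q - 1) ^ 2 * (R - 1) / (R - q) ^ 2)) := by
      rw [hsg]
      field_simp
      ring
    rw [← e]
    linarith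
  have hst := h.star
  rw [← hρ, ← hM, ← hnq] at hst
  have hq4 : 0 < q ^ 4 := by positivity
  -- lower bound for `ρ ^ 2 - n M`
  have h3 : n ^ 2 * q ^ 4 * ((q - 1) ^ 2 * (R - 1) / (R - q) ^ 2) ≤ (n * q ^ 2) ^ 2 - n * M := by
    nlinarith [mul_le_mul_of_nonneg_left hM1 hn.le]
  have h4 : 0 ≤ (p - 1) * n ^ 2 + (n * q ^ 2 - n) ^ 2 := by
    have : 0 ≤ (p - 1) * n ^ 2 := mul_nonneg (by linarith) (sq_nonneg _)
    positivity
  have h5 := mul_le_mul_of_nonneg_right h3 h4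
  have h6 := h5.trans hst
  -- cancel
  have h7 : (n ^ 4 * q ^ 4 * (q - 1) ^ 2 / (R - q) ^ 2) * ((R - 1) * (p - 1 + (q ^ 2 - 1) ^ 2)) ≤
      (n ^ 4 * q ^ 4 * (q - 1) ^ 2 / (R - q) ^ 2) *
        ((q + 1) ^ 2 * (R - q) ^ 2 * ((n + 2) / 2)) := by
    refine le_trans (le_of_eq ?_) (h6.trans (le_of_eq ?_))
    · ring
    · field_simp
      ring
  have hq10 : 0 < q - 1 := by linarith
  exact le_of_mul_le_mul_left h7 (by positivity)

end Pool.Agent.EI28L
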