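import Pool.Agent.EI28L.Uniform

set_option autoImplicit false

/-! A bound without threshold: `p ≤ 1 + (c n + 2) (r - n) max(4 n, r + n) / (2 n ^ 2)`. -/

namespace Pool.Agent.EI28L

open Module Pool.Agent.H32Iso Pool.Agent.EI28

section

variable {F : Type} [NormedDivisionRing F] [InnerProductSpace ℝ F] [IsScalarTower ℝ F F]
  [FiniteDimensional ℝ F] {n r p : ℕ}

theorem free_sizes (hn : 1 ≤ n) (hnr : n ≤ r) (hp : p ∈ sizes F n r) :
    (p : ℝ) ≤ 1 + ((finrank ℝ F : ℝ) * n + 2) * ((r : ℝ) - n) *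
      max (4 * (n : ℝ)) ((r : ℝ) + n) / (2 * n ^ 2) := by
  have hn' : (0 : ℝ) < n := by exact_mod_cast hn
  rcases le_total r (3 * n) with h | h
  · have h1 := small_sizes hn hnr h hp
    have h2 : (r : ℝ) ≤ 3 * n := by exact_mod_cast h
    rw [max_eq_left (by linarith)]
    have e : 2 * ((finrank ℝ F : ℝ) * n + 2) * ((r : ℝ) - n) / n =
        ((finrank ℝ F : ℝ) * n + 2) * ((r : ℝ) - n) * (4 * n) / (2 * n ^ 2) := by
      field_simp
      ring
    rw [← e]
    exact h1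
  · have h1 := large_sizes hn h hp
    have h2 : 3 * (n : ℝ) ≤ r := by exact_mod_cast h
    rw [max_eq_right (by linarith)]
    have e : ((finrank ℝ F : ℝ) * n + 2) * ((r : ℝ) ^ 2 - n ^ 2) / (2 * n ^ 2) =
        ((finrank ℝ F : ℝ) * n + 2) * ((r : ℝ) - n) * (r + n) / (2 * n ^ 2) := by
      ring
    rw [← e]
    exact h1

end

theorem real_free {n r p : ℕ} (hn : 1 ≤ n) (hnr : n ≤ r) (hp : p ∈ sizes ℝ n r) :
    (p : ℝ) ≤ 1 + ((n : ℝ) + 2) * (r - n) * max (4 * n) (r + n) / (2 * n ^ 2) := by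
  have h := free_sizes (F := ℝ) hn hnr hp
  rw [finrank_self] at h
  simpa using h

theorem complex_free {n r p : ℕ} (hn : 1 ≤ n) (hnr : n ≤ r) (hp : p ∈ sizes ℂ n r) :
    (p : ℝ) ≤ 1 + (2 * (n : ℝ) + 2) * (r - n) * max (4 * n) (r + n) / (2 * n ^ 2) := by
  have h := free_sizes (F := ℂ) hn hnr hp
  rw [Complex.finrank_real_complex] at h
  push_cast at h ⊢
  exact h

theorem quaternion_free {n r p : ℕ} (hn : 1 ≤ n) (hnr : n ≤ r)
    (hp : p ∈ sizes (Quaternion ℝ) n r) :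
    (p : ℝ) ≤ 1 + (4 * (n : ℝ) + 2) * (r - n) * max (4 * n) (r + n) / (2 * n ^ 2) := by
  have h := free_sizes (F := Quaternion ℝ) hn hnr hp
  rw [Quaternion.finrank_eq_four] at h
  push_cast at h ⊢
  exact h

end Pool.Agent.EI28L
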