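import Pool.Agent.EI28L.Fin
import Pool.Agent.EI28L.Arith
import Pool.Agent.EI28.ToMatrix
import Pool.Agent.H32Iso.Fields

set_option autoImplicit false

/-! Upper bounds for the members of `sizes F n r` with a linear threshold or no threshold. -/

namespace Pool.Agent.EI28L

open Matrix Finset Module Pool.Agent.H32Iso Pool.Agent.EI28

section

variable {F : Type} [NormedDivisionRing F] [InnerProductSpace ℝ F] [IsScalarTower ℝ F F]
  [FiniteDimensional ℝ F] {n r p : ℕ}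

theorem ldata (hn : 1 ≤ n) (hp2 : 2 ≤ p) (hp : p ∈ sizes F n r) :
    ∃ s : Fin (finrank ℝ F * r) → ℝ,
      LData (Fin (finrank ℝ F * r)) ((finrank ℝ F * n : ℕ) : ℝ) p s := by
  obtain ⟨lam, V, h⟩ := hp
  have hF : 0 < finrank ℝ F := finrank_pos
  obtain ⟨Q, mu, hQ, hmu⟩ := exists_mcfg h.cfg (finrank_Sp (F := F) r) h.finrank_range
  have h1 : (1 : ℝ) ≤ ((finrank ℝ F * n : ℕ) : ℝ) := by
    exact_mod_cast Nat.mul_pos hF hn
  have h2 := hQ.toLData h1 h.nonneg h.lt_one (by simpa using hp2) hmu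
  rw [Fintype.card_fin] at h2
  exact ⟨_, h2⟩

/-- the final inequality, `R = r / n` -/
theorem fin_sizes (hn : 1 ≤ n) (hp2 : 2 ≤ p) (hp : p ∈ sizes F n r) :
    ∃ q : ℝ, 1 < q ∧ q ^ 2 ≤ (r : ℝ) / n ∧
      ((r : ℝ) / n - 1) * ((p : ℝ) - 1 + (q ^ 2 - 1) ^ 2) ≤
        (q + 1) ^ 2 * ((r : ℝ) / n - q) ^ 2 * (((finrank ℝ F : ℝ) * n + 2) / 2) := by
  obtain ⟨s, h⟩ := ldata hn hp2 hp
  have hF : 0 < finrank ℝ F := finrank_pos
  have hF' : (0 : ℝ) < finrank ℝ F := by exact_mod_cast hF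
  have hn' : (0 : ℝ) < n := by exact_mod_cast hn
  obtain ⟨q, h1, h2, h3⟩ := h.fin (by exact_mod_cast Nat.mul_pos hF hn)
    (by exact_mod_cast (by omega : 1 ≤ p))
  have e : (Fintype.card (Fin (finrank ℝ F * r)) : ℝ) / ((finrank ℝ F * n : ℕ) : ℝ)
      = (r : ℝ) / n := by
    rw [Fintype.card_fin]
    push_cast
    field_simp
  rw [e] at h2 h3
  refine ⟨q, h1, h2, ?_⟩
  push_cast at h3
  exact h3

/-- exact bound -/
theorem exact_sizes (hn : 1 ≤ n) (hc : 2 < (finrank ℝ F : ℝ) * n)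
    (hr : 2 * ((finrank ℝ F : ℝ) * n + 2) * Real.sqrt ((r : ℝ) / n)
      ≤ ((finrank ℝ F : ℝ) * n - 2) * ((r : ℝ) / n - 1)) (hnr : n < r) (hp : p ∈ sizes F n r) :
    (p : ℝ) ≤ r * ((finrank ℝ F : ℝ) * r + 2 - (finrank ℝ F : ℝ) * n) / (2 * n) := by
  have hn' : (0 : ℝ) < n := by exact_mod_cast hn
  have hnr' : (n : ℝ) < r := by exact_mod_cast hnr
  have hr0 : (0 : ℝ) < r := by linarith
  have hR : 1 < (r : ℝ) / n := by rw [lt_div_iff₀ hn']; linarith
  set c : ℝ := (finrank ℝ F : ℝ) with hcdef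
  have hc0 : 0 < c := by
    by_contra hcon
    push Not at hcon
    nlinarith
  have key : (p : ℝ) - 1 ≤ ((r : ℝ) / n - 1) * (c * n * ((r : ℝ) / n) / 2 + 1) := by
    rcases Nat.lt_or_ge p 2 with h2 | h2
    · have : (p : ℝ) ≤ 1 := by exact_mod_cast (by omega : p ≤ 1)
      have h3 : 0 ≤ ((r : ℝ) / n - 1) * (c * n * ((r : ℝ) / n) / 2 + 1) := by
        apply mul_nonneg (by linarith)
        positivity
      linarith
    · obtain ⟨q, h1, h3, h4⟩ := fin_sizes hn h2 hp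
      exact exact (n := c * n) (Q := Real.sqrt ((r : ℝ) / n)) hc
        (Real.sqrt_pos.mpr (by positivity)) (Real.sq_sqrt (by positivity)) hR hr h1 h3 h4
  have e : r * (c * r + 2 - c * n) / (2 * n) =
      1 + ((r : ℝ) / n - 1) * (c * n * ((r : ℝ) / n) / 2 + 1) := by
    field_simp
    ring
  rw [e]
  linarith

/-- bound for `n ≤ r ≤ 3 n` -/
theorem small_sizes (hn : 1 ≤ n) (hnr : n ≤ r) (hr : r ≤ 3 * n) (hp : p ∈ sizes F n r) :
    (p : ℝ) ≤ 1 + 2 * ((finrank ℝ F : ℝ) * n + 2) * ((r : ℝ) - n) / n := by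
  have hn' : (0 : ℝ) < n := by exact_mod_cast hn
  have hnr' : (n : ℝ) ≤ r := by exact_mod_cast hnr
  have hc0 : (0 : ℝ) < finrank ℝ F := by exact_mod_cast (finrank_pos (R := ℝ) (M := F))
  set c : ℝ := (finrank ℝ F : ℝ) with hcdef
  rcases Nat.lt_or_ge p 2 with h2 | h2
  · have : (p : ℝ) ≤ 1 := by exact_mod_cast (by omega : p ≤ 1)
    have h3 : 0 ≤ 2 * (c * n + 2) * ((r : ℝ) - n) / n := by
      apply div_nonneg _ hn'.le
      apply mul_nonneg _ (by linarith)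
      positivity
    linarith
  · obtain ⟨q, h1, h3, h4⟩ := fin_sizes hn h2 hp
    have hR : 1 < (r : ℝ) / n := by nlinarith
    have hR3 : (r : ℝ) / n ≤ 3 := by
      rw [div_le_iff₀ hn']
      exact_mod_cast hr
    have := small (n := c * n) (by positivity) hR hR3 h1 h3 h4
    have e : 2 * (c * n + 2) * ((r : ℝ) - n) / n = 2 * (c * n + 2) * ((r : ℝ) / n - 1) := by
      field_simp
    rw [e]
    linarith

/-- bound for `3 n ≤ r` -/
theorem large_sizes (hn : 1 ≤ n) (hr : 3 * n ≤ r) (hp : p ∈ sizes F n r) :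
    (p : ℝ) ≤ 1 + ((finrank ℝ F : ℝ) * n + 2) * ((r : ℝ) ^ 2 - n ^ 2) / (2 * n ^ 2) := by
  have hn' : (0 : ℝ) < n := by exact_mod_cast hn
  have hnr' : 3 * (n : ℝ) ≤ r := by exact_mod_cast hr
  have hc0 : (0 : ℝ) < finrank ℝ F := by exact_mod_cast (finrank_pos (R := ℝ) (M := F))
  set c : ℝ := (finrank ℝ F : ℝ) with hcdef
  rcases Nat.lt_or_ge p 2 with h2 | h2
  · have : (p : ℝ) ≤ 1 := by exact_mod_cast (by omega : p ≤ 1)
    have h3 : 0 ≤ (c * n + 2) * ((r : ℝ) ^ 2 - n ^ 2) / (2 * n ^ 2) := by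
      apply div_nonneg _ (by positivity)
      apply mul_nonneg (by positivity)
      nlinarith
    linarith
  · obtain ⟨q, h1, h3, h4⟩ := fin_sizes hn h2 hp
    have hR3 : 3 ≤ (r : ℝ) / n := by
      rw [le_div_iff₀ hn']
      exact hnr'
    have := large (n := c * n) (by positivity) hR3 h1 h3 h4
    have e : (c * n + 2) * ((r : ℝ) ^ 2 - n ^ 2) / (2 * n ^ 2)
        = (c * n + 2) * (((r : ℝ) / n) ^ 2 - 1) / 2 := by
      field_simp
    rw [e]
    linarith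

end

end Pool.Agent.EI28L
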