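import Pool.Agent.EI28.Core

set_option autoImplicit false
set_option linter.unusedSectionVars false

/-! The projection of `sig S` on three tensors. -/

namespace Pool.Agent.EI28L

open Matrix Finset Pool.Agent.EI28

/-- Optimal choice of the three coefficients. -/
theorem opt {n p k q lam M : ℝ} (hn : 0 < n) (hp : 2 ≤ p) (hl : lam < 1) (hk0 : 0 < k)
    (hk : k = 1 + (p - 1) * lam) (hq : q = 1 + (p - 1) * lam ^ 2) (hq0 : 0 < q)
    (h : ∀ g t d : ℝ, 0 ≤ ((n * p * k) ^ 2 + M) / 2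
      + g ^ 2 * (n * p * k) ^ 2
      + t ^ 2 * (p * ((n ^ 2 + n) / 2) + p * (p - 1) * ((n ^ 2 + n) / 2 * lam ^ 2))
      + d ^ 2 * (p * n ^ 2 + p * (p - 1) * (n ^ 2 * lam ^ 2))
      + 2 * g * M
      - 2 * t * (p * ((n ^ 2 + n) / 2 * k ^ 2))
      + 2 * d * (p * (n * k ^ 2))
      - 2 * g * t * (p * (n * k ^ 2))
      + 2 * g * d * (p * (n * k) ^ 2)
      - 2 * t * d * (p * n + p * (p - 1) * (n * lam ^ 2))) :
    ((n ^ 2 + n) / 2 - 1) * p * k ^ 4 / q + (M / (n * p * k)) ^ 2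
      + (p * n * k ^ 2 - M / p) ^ 2 / (n ^ 2 * (p - 1) * (1 - lam) ^ 2)
      ≤ ((n * p * k) ^ 2 + M) / 2 := by
  have hp0 : 0 < p := by linarith
  have hp1 : 0 < p - 1 := by linarith
  have h1l : 0 < 1 - lam := by linarith
  set t : ℝ := k ^ 2 / q with ht
  set b : ℝ := (p * n * k ^ 2 - M / p) / (n ^ 2 * (p - 1) * (1 - lam) ^ 2) with hb
  set a : ℝ := M / (n * p * k) with ha
  have hM : M = a * (n * p * k) := by rw [ha]; field_simp
  have hB : p * n * k ^ 2 - a * (n * k) = b * (n ^ 2 * (p - 1) * (1 - lam) ^ 2) := by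
    have e : M / p = a * (n * k) := by rw [hM]; field_simp
    rw [hb, ← e]
    field_simp
  have h1 := h ((-a + b * (n * k)) / (n * p * k)) t (t / n - b)
  have hqq : (p - 1) * lam ^ 2 = q - 1 := by rw [hq]; ring
  have htq : t * q = k ^ 2 := by rw [ht]; field_simp
  have hkey : p * q - k ^ 2 = (p - 1) * (1 - lam) ^ 2 := by rw [hq, hk]; ring
  have e1 : p * ((n ^ 2 + n) / 2) + p * (p - 1) * ((n ^ 2 + n) / 2 * lam ^ 2) =
      p * ((n ^ 2 + n) / 2) * q := by rw [hq]; ring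
  have e2 : p * n ^ 2 + p * (p - 1) * (n ^ 2 * lam ^ 2) = p * n ^ 2 * q := by rw [hq]; ring
  have e3 : p * n + p * (p - 1) * (n * lam ^ 2) = p * n * q := by rw [hq]; ring
  rw [e1, e2, e3] at h1
  set g : ℝ := (-a + b * (n * k)) / (n * p * k) with hg
  have hgg : g * (n * p * k) = -a + b * (n * k) := by rw [hg]; field_simp
  have E1 : g ^ 2 * (n * p * k) ^ 2 = (-a + b * (n * k)) ^ 2 := by rw [← hgg]; ring
  have E2 : t ^ 2 * (p * ((n ^ 2 + n) / 2) * q) = t * k ^ 2 * (p * ((n ^ 2 + n) / 2)) := by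
    rw [← htq]; ring
  have E3 : (t / n - b) ^ 2 * (p * n ^ 2 * q) =
      t * k ^ 2 * p - 2 * (k ^ 2 * b * (p * n)) + b ^ 2 * (p * n ^ 2 * q) := by
    rw [← htq]; field_simp; ring
  have E4 : 2 * g * M = 2 * a * (-a + b * (n * k)) := by
    rw [hM, ← hgg]; ring
  have E5 : 2 * g * t * (p * (n * k ^ 2)) = 2 * t * k * (-a + b * (n * k)) := by
    rw [← hgg]; ring
  have E6 : 2 * g * (t / n - b) * (p * (n * k) ^ 2) =
      2 * (-a + b * (n * k)) * (t * k - b * (n * k)) := by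
    rw [← hgg]; field_simp
  have E7 : 2 * t * (t / n - b) * (p * n * q) = 2 * (t * k ^ 2 * p) - 2 * (k ^ 2 * b * (p * n)) := by
    rw [← htq]; field_simp
  have E8 : 2 * (t / n - b) * (p * (n * k ^ 2)) = 2 * (t * k ^ 2 * p) - 2 * (k ^ 2 * b * (p * n)) := by
    field_simp
  rw [E1, E2, E3, E4, E5, E6, E7, E8] at h1
  have G1 : ((n ^ 2 + n) / 2 - 1) * p * k ^ 4 / q = ((n ^ 2 + n) / 2 - 1) * p * (t * k ^ 2) := by
    rw [ht]; field_simp
  have G3 : (p * n * k ^ 2 - M / p) ^ 2 / (n ^ 2 * (p - 1) * (1 - lam) ^ 2)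
      = b * (p * n * k ^ 2 - a * (n * k)) := by
    have e : M / p = a * (n * k) := by rw [hM]; field_simp
    rw [hb, ← e]
    ring
  rw [G1, G3]
  have E9 : b ^ 2 * (p * n ^ 2 * q) = b ^ 2 * (n ^ 2 * k ^ 2)
      + b * (p * n * k ^ 2 - a * (n * k)) := by
    rw [hB]
    have : b ^ 2 * (p * n ^ 2 * q) = b ^ 2 * n ^ 2 * (p * q - k ^ 2) + b ^ 2 * (n ^ 2 * k ^ 2) := by
      ring
    rw [this, hkey]; ring
  rw [E9] at h1
  nlinarith [h1]

end Pool.Agent.EI28L
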