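import Pool.Agent.EI28L.Star

set_option autoImplicit false

/-! The inequality STAR for real numbers. -/

namespace Pool.Agent.EI28L

theorem star_real {n p k q lam ρ M : ℝ} (hn : 1 ≤ n) (hp : 2 ≤ p) (hl0 : 0 ≤ lam) (hl : lam < 1)
    (hk : k = 1 + (p - 1) * lam) (hq : q = 1 + (p - 1) * lam ^ 2) (hρ : ρ * k = n * p)
    (h : ((n ^ 2 + n) / 2 - 1) * p * k ^ 4 / q + (k ^ 4 * M / (n * p * k)) ^ 2
      + (p * n * k ^ 2 - k ^ 4 * M / p) ^ 2 / (n ^ 2 * (p - 1) * (1 - lam) ^ 2)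
      ≤ ((n * p * k) ^ 2 + k ^ 4 * M) / 2) :
    n < ρ ∧ (ρ ^ 2 - n * M) * ((p - 1) * n ^ 2 + (ρ - n) ^ 2)
      ≤ ρ ^ 2 * (ρ - n) ^ 2 * ((n + 2) / 2) := by
  have hn0 : 0 < n := by linarith
  have hp0 : 0 < p := by linarith
  have hX : 0 < p - 1 := by linarith
  have h1l : 0 < 1 - lam := by linarith
  have hk1 : 1 ≤ k := by rw [hk]; nlinarith
  have hk0 : 0 < k := by linarith
  have hkp : k < p := by rw [hk]; nlinarith
  have hρ0 : 0 < ρ := by
    by_contra hcon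
    push Not at hcon
    nlinarith
  have hnρ : n < ρ := by
    by_contra hcon
    push Not at hcon
    nlinarith
  refine ⟨hnρ, ?_⟩
  have hlam : ρ * ((p - 1) * lam) = n * p - ρ := by
    have : ρ * (1 + (p - 1) * lam) = n * p := by rw [← hk, hρ]
    linarith
  have h1lam : ρ * (p - 1) * (1 - lam) = p * (ρ - n) := by
    linarith
  set T : ℝ := (ρ - n) ^ 2 with hT
  have hT0 : 0 < T := by
    have : 0 < ρ - n := by linarith
    positivity
  have hq0 : 0 < q := by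
    rw [hq]
    have : 0 ≤ (p - 1) * lam ^ 2 := mul_nonneg hX.le (sq_nonneg _)
    linarith
  have hqe : ρ ^ 2 * (p - 1) * q = p * ((p - 1) * n ^ 2 + T) := by
    have e : ρ ^ 2 * (p - 1) * q = ρ ^ 2 * (p - 1) + (ρ * ((p - 1) * lam)) ^ 2 := by
      rw [hq]; ring
    rw [e, hlam, hT]; ring
  set Y : ℝ := ((p - 1) * n ^ 2 + T) / T with hY
  have hYT : Y * T = (p - 1) * n ^ 2 + T := by rw [hY]; field_simp
  have hY0 : 0 < Y := by rw [hY]; positivity
  set om : ℝ := (ρ ^ 2 - n * M) / ρ ^ 2 with hom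
  have homρ : om * ρ ^ 2 = ρ ^ 2 - n * M := by rw [hom]; field_simp
  -- the three terms
  have T1 : ((n ^ 2 + n) / 2 - 1) * p * k ^ 4 / q
      = k ^ 4 * ρ ^ 2 / n ^ 2 * (((n ^ 2 + n) / 2 - 1) * (1 - 1 / Y)) := by
    have h1 : 1 - 1 / Y = (p - 1) * n ^ 2 / ((p - 1) * n ^ 2 + T) := by
      rw [hY]; field_simp; ring
    have h2 : p / q = ρ ^ 2 * (p - 1) / ((p - 1) * n ^ 2 + T) := by
      rw [div_eq_div_iff hq0.ne' (by positivity)]
      linarith
    rw [h1]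
    have h3 : ((n ^ 2 + n) / 2 - 1) * p * k ^ 4 / q = ((n ^ 2 + n) / 2 - 1) * k ^ 4 * (p / q) := by
      ring
    rw [h3, h2]
    field_simp
  have T2 : (k ^ 4 * M / (n * p * k)) ^ 2 = k ^ 4 * ρ ^ 2 / n ^ 2 * (1 - om) ^ 2 := by
    have h1 : 1 - om = n * M / ρ ^ 2 := by rw [hom]; field_simp; ring
    rw [h1, ← hρ]
    field_simp
  have T3 : (p * n * k ^ 2 - k ^ 4 * M / p) ^ 2 / (n ^ 2 * (p - 1) * (1 - lam) ^ 2)
      = k ^ 4 * ρ ^ 2 / n ^ 2 * (om ^ 2 * (Y - 1)) := by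
    have h1 : Y - 1 = (p - 1) * n ^ 2 / T := by rw [hY]; field_simp; ring
    have h2 : p * n * k ^ 2 - k ^ 4 * M / p = k ^ 2 * (p * n * om) := by
      have : k ^ 2 * M / p = p * n * (1 - om) := by
        have h1 : 1 - om = n * M / ρ ^ 2 := by rw [hom]; field_simp; ring
        rw [h1]
        have : k ^ 2 * ρ ^ 2 = (n * p) ^ 2 := by rw [← hρ]; ring
        field_simp
        linear_combination M * this
      have h3 : k ^ 4 * M / p = k ^ 2 * (k ^ 2 * M / p) := by ring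
      rw [h3, this]; ring
    have h3 : (1 - lam) = p * (ρ - n) / (ρ * (p - 1)) := by
      rw [eq_div_iff (by positivity)]
      linarith
    rw [h2, h1, h3, hT]
    have : ρ - n ≠ 0 := by linarith
    field_simp
  have T4 : ((n * p * k) ^ 2 + k ^ 4 * M) / 2
      = k ^ 4 * ρ ^ 2 / n ^ 2 * ((n ^ 2 + n * (1 - om)) / 2) := by
    have h1 : M = (1 - om) * ρ ^ 2 / n := by
      have : n * M = (1 - om) * ρ ^ 2 := by linarith
      rw [← this]; field_simp
    rw [← hρ, h1]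
    field_simp
  rw [T1, T2, T3, T4, ← mul_add, ← mul_add] at h
  have hc : 0 < k ^ 4 * ρ ^ 2 / n ^ 2 := by positivity
  have h2 := le_of_mul_le_mul_left h hc
  -- multiply by `Y`
  have h3 : ((n ^ 2 + n) / 2 - 1) * (Y - 1) + Y * (1 - om) ^ 2 + om ^ 2 * (Y - 1) * Y
      ≤ Y * ((n ^ 2 + n * (1 - om)) / 2) := by
    have h4 := mul_le_mul_of_nonneg_left h2 hY0.le
    have e : Y * (((n ^ 2 + n) / 2 - 1) * (1 - 1 / Y) + (1 - om) ^ 2 + om ^ 2 * (Y - 1))
        = ((n ^ 2 + n) / 2 - 1) * (Y - 1) + Y * (1 - om) ^ 2 + om ^ 2 * (Y - 1) * Y := by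
      have : Y * (1 - 1 / Y) = Y - 1 := by field_simp
      calc Y * (((n ^ 2 + n) / 2 - 1) * (1 - 1 / Y) + (1 - om) ^ 2 + om ^ 2 * (Y - 1))
          = ((n ^ 2 + n) / 2 - 1) * (Y * (1 - 1 / Y)) + Y * (1 - om) ^ 2
            + om ^ 2 * (Y - 1) * Y := by ring
        _ = _ := by rw [this]
    rw [e] at h4
    exact h4
  have h5 : (om * Y - (n + 2) / 2) * (om * Y + (n - 1)) ≤ 0 := by nlinarith
  have h6 : om * Y ≤ (n + 2) / 2 := by
    by_contra hcon
    push Not at hcon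
    have : 0 < (om * Y - (n + 2) / 2) * (om * Y + (n - 1)) :=
      mul_pos (by linarith) (by linarith)
    linarith
  have h7 : (ρ ^ 2 - n * M) * ((p - 1) * n ^ 2 + T) = om * Y * (ρ ^ 2 * T) := by
    rw [← homρ, ← hYT]; ring
  rw [h7]
  calc om * Y * (ρ ^ 2 * T) ≤ (n + 2) / 2 * (ρ ^ 2 * T) :=
        mul_le_mul_of_nonneg_right h6 (by positivity)
    _ = _ := by ring

end Pool.Agent.EI28L
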