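import Pool.Agent.EI28.Master
import Pool.Agent.EI28L.Data

set_option autoImplicit false
set_option linter.unusedSectionVars false

/-! The inequality STAR with the extra parameter `xi`. -/

namespace Pool.Agent.EI28L

open Matrix Finset Pool.Agent.EI28

/-- Optimal choice of the three coefficients. -/
theorem optK {n p k q lam M K : ℝ} (hn : 0 < n) (hp : 2 ≤ p) (hl : lam < 1) (hk0 : 0 < k)
    (hk : k = 1 + (p - 1) * lam) (hq : q = 1 + (p - 1) * lam ^ 2) (hq0 : 0 < q)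
    (h : ∀ g t d : ℝ, 0 ≤ K
      + g ^ 2 * (n * p * k) ^ 2
      + t ^ 2 * (p * ((n ^ 2 + n) / 2) + p * (p - 1) * ((n ^ 2 + n) / 2 * lam ^ 2))
      + d ^ 2 * (p * n ^ 2 + p * (p - 1) * (n ^ 2 * lam ^ 2))
      + 2 * g * (k ^ 2 * M)
      - 2 * t * (p * ((n ^ 2 + n) / 2))
      + 2 * d * (p * n)
      - 2 * g * t * (p * (n * k ^ 2))
      + 2 * g * d * (p * (n * k) ^ 2)
      - 2 * t * d * (p * n + p * (p - 1) * (n * lam ^ 2))) :
    ((n ^ 2 + n) / 2 - 1) * p / q + (k * M / (n * p)) ^ 2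
      + (p * n - k ^ 2 * M / p) ^ 2 / (n ^ 2 * (p - 1) * (1 - lam) ^ 2)
      ≤ K := by
  have hp0 : 0 < p := by linarith
  have hp1 : 0 < p - 1 := by linarith
  have h1l : 0 < 1 - lam := by linarith
  set t : ℝ := 1 / q with ht
  set b : ℝ := (p * n - k ^ 2 * M / p) / (n ^ 2 * (p - 1) * (1 - lam) ^ 2) with hb
  set a : ℝ := k * M / (n * p) with ha
  have hM : k * M = a * (n * p) := by rw [ha]; field_simp
  have hM2 : k ^ 2 * M / p = a * (n * k) := by
    have : k ^ 2 * M = k * (a * (n * p)) := by rw [← hM]; ring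
    rw [this]; field_simp
  have hB : p * n - a * (n * k) = b * (n ^ 2 * (p - 1) * (1 - lam) ^ 2) := by
    rw [hb, ← hM2]
    field_simp
  have h1 := h ((-a + b * (n * k)) / (n * p * k)) t (t / n - b)
  have hqq : (p - 1) * lam ^ 2 = q - 1 := by rw [hq]; ring
  have htq : t * q = 1 := by rw [ht]; field_simp
  have hkey : p * q - k ^ 2 = (p - 1) * (1 - lam) ^ 2 := by rw [hq, hk]; ring
  have e1 : p * ((n ^ 2 + n) / 2) + p * (p - 1) * ((n ^ 2 + n) / 2 * lam ^ 2) =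
      p * ((n ^ 2 + n) / 2) * q := by rw [hq]; ring
  have e2 : p * n ^ 2 + p * (p - 1) * (n ^ 2 * lam ^ 2) = p * n ^ 2 * q := by rw [hq]; ring
  have e3 : p * n + p * (p - 1) * (n * lam ^ 2) = p * n * q := by rw [hq]; ring
  rw [e1, e2, e3] at h1
  set g : ℝ := (-a + b * (n * k)) / (n * p * k) with hg
  have hgg : g * (n * p * k) = -a + b * (n * k) := by rw [hg]; field_simp
  have E1 : g ^ 2 * (n * p * k) ^ 2 = (-a + b * (n * k)) ^ 2 := by rw [← hgg]; ring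
  have E2 : t ^ 2 * (p * ((n ^ 2 + n) / 2) * q) = t * (p * ((n ^ 2 + n) / 2)) := by
    have : t ^ 2 * (p * ((n ^ 2 + n) / 2) * q) = (t * q) * (t * (p * ((n ^ 2 + n) / 2))) := by ring
    rw [this, htq, one_mul]
  have E3 : (t / n - b) ^ 2 * (p * n ^ 2 * q) =
      t * p - 2 * (b * (p * n)) + b ^ 2 * (p * n ^ 2 * q) := by
    have : (t / n - b) ^ 2 * (p * n ^ 2 * q) = (t * q) * (t * p) - 2 * ((t * q) * (b * (p * n)))
        + b ^ 2 * (p * n ^ 2 * q) := by field_simp; ring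
    rw [this, htq]; ring
  have E4 : 2 * g * (k ^ 2 * M) = 2 * a * (-a + b * (n * k)) := by
    have : k ^ 2 * M = k * (a * (n * p)) := by rw [← hM]; ring
    rw [this, ← hgg]; ring
  have E5 : 2 * g * t * (p * (n * k ^ 2)) = 2 * t * k * (-a + b * (n * k)) := by
    rw [← hgg]; ring
  have E6 : 2 * g * (t / n - b) * (p * (n * k) ^ 2) =
      2 * (-a + b * (n * k)) * (t * k - b * (n * k)) := by
    rw [← hgg]; field_simp
  have E7 : 2 * t * (t / n - b) * (p * n * q) = 2 * (t * p) - 2 * (b * (p * n)) := by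
    have : 2 * t * (t / n - b) * (p * n * q) = 2 * ((t * q) * (t * p))
      - 2 * ((t * q) * (b * (p * n))) := by field_simp
    rw [this, htq]; ring
  have E8 : 2 * (t / n - b) * (p * n) = 2 * (t * p) - 2 * (b * (p * n)) := by
    field_simp
  rw [E1, E2, E3, E4, E5, E6, E7, E8] at h1
  have G1 : ((n ^ 2 + n) / 2 - 1) * p / q = ((n ^ 2 + n) / 2 - 1) * p * t := by
    rw [ht]; field_simp
  have G3 : (p * n - k ^ 2 * M / p) ^ 2 / (n ^ 2 * (p - 1) * (1 - lam) ^ 2)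
      = b * (p * n - a * (n * k)) := by
    rw [hb, ← hM2]
    ring
  rw [G1, G3]
  have E9 : b ^ 2 * (p * n ^ 2 * q) = b ^ 2 * (n ^ 2 * k ^ 2)
      + b * (p * n - a * (n * k)) := by
    rw [hB]
    have : b ^ 2 * (p * n ^ 2 * q) = b ^ 2 * n ^ 2 * (p * q - k ^ 2) + b ^ 2 * (n ^ 2 * k ^ 2) := by
      ring
    rw [this, hkey]; ring
  rw [E9] at h1
  nlinarith [h1]

theorem starK_real {n p k q lam ρ M K : ℝ} (hn : 1 ≤ n) (hp : 2 ≤ p) (hl0 : 0 ≤ lam)
    (hl : lam < 1)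
    (hk : k = 1 + (p - 1) * lam) (hq : q = 1 + (p - 1) * lam ^ 2) (hρ : ρ * k = n * p)
    (hnρ : n < ρ)
    (h : ((n ^ 2 + n) / 2 - 1) * p / q + (k * M / (n * p)) ^ 2
      + (p * n - k ^ 2 * M / p) ^ 2 / (n ^ 2 * (p - 1) * (1 - lam) ^ 2) ≤ K) :
    (3 * (ρ ^ 2 - n * M) - 4 * n * (K - (ρ ^ 2 + M) / 2) / 2) *
        ((p - 1) * n ^ 2 + (ρ - n) ^ 2)
      ≤ 3 * (ρ ^ 2 * (ρ - n) ^ 2 * ((n + 2) / 2)) := by
  have hn0 : 0 < n := by linarith
  have hp0 : 0 < p := by linarith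
  have hX : 0 < p - 1 := by linarith
  have h1l : 0 < 1 - lam := by linarith
  have hk1 : 1 ≤ k := by rw [hk]; nlinarith
  have hk0 : 0 < k := by linarith
  have hρ0 : 0 < ρ := by linarith
  have hlam : ρ * ((p - 1) * lam) = n * p - ρ := by
    have : ρ * (1 + (p - 1) * lam) = n * p := by rw [← hk, hρ]
    linarith
  have h1lam : ρ * (p - 1) * (1 - lam) = p * (ρ - n) := by
    linarith
  set T : ℝ := (ρ - n) ^ 2 with hT
  have hT0 : 0 < T := by
    have : 0 < ρ - n := by linarith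
    positivity
  have hq0 : 0 < q := by
    rw [hq]
    have : 0 ≤ (p - 1) * lam ^ 2 := mul_nonneg hX.le (sq_nonneg _)
    linarith
  have hqe : ρ ^ 2 * (p - 1) * q = p * ((p - 1) * n ^ 2 + T) := by
    have e : ρ ^ 2 * (p - 1) * q = ρ ^ 2 * (p - 1) + (ρ * ((p - 1) * lam)) ^ 2 := by
      rw [hq]; ring
    rw [e, hlam, hT]; ring
  set Y : ℝ := ((p - 1) * n ^ 2 + T) / T with hY
  have hYT : Y * T = (p - 1) * n ^ 2 + T := by rw [hY]; field_simp
  have hY0 : 0 < Y := by rw [hY]; positivity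
  set om : ℝ := (ρ ^ 2 - n * M) / ρ ^ 2 with hom
  have homρ : om * ρ ^ 2 = ρ ^ 2 - n * M := by rw [hom]; field_simp
  have hkρ : k ^ 2 * ρ ^ 2 = (n * p) ^ 2 := by rw [← hρ]; ring
  -- the three terms
  have T1 : ((n ^ 2 + n) / 2 - 1) * p / q
      = ρ ^ 2 / n ^ 2 * (((n ^ 2 + n) / 2 - 1) * (1 - 1 / Y)) := by
    have h1 : 1 - 1 / Y = (p - 1) * n ^ 2 / ((p - 1) * n ^ 2 + T) := by
      rw [hY]; field_simp; ring
    have h2 : p / q = ρ ^ 2 * (p - 1) / ((p - 1) * n ^ 2 + T) := by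
      rw [div_eq_div_iff hq0.ne' (by positivity)]
      linarith
    rw [h1]
    have h3 : ((n ^ 2 + n) / 2 - 1) * p / q = ((n ^ 2 + n) / 2 - 1) * (p / q) := by
      ring
    rw [h3, h2]
    field_simp
  have h1om : 1 - om = n * M / ρ ^ 2 := by rw [hom]; field_simp; ring
  have T2 : (k * M / (n * p)) ^ 2 = ρ ^ 2 / n ^ 2 * (1 - om) ^ 2 := by
    rw [h1om, div_pow, ← hkρ]
    field_simp
  have T3 : (p * n - k ^ 2 * M / p) ^ 2 / (n ^ 2 * (p - 1) * (1 - lam) ^ 2)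
      = ρ ^ 2 / n ^ 2 * (om ^ 2 * (Y - 1)) := by
    have h1 : Y - 1 = (p - 1) * n ^ 2 / T := by rw [hY]; field_simp; ring
    have h2 : p * n - k ^ 2 * M / p = p * n * om := by
      have : k ^ 2 * M / p = p * n * (1 - om) := by
        rw [h1om]
        field_simp
        linear_combination M * hkρ
      rw [this]; ring
    have h3 : (1 - lam) = p * (ρ - n) / (ρ * (p - 1)) := by
      rw [eq_div_iff (by positivity)]
      linarith
    rw [h2, h1, h3, hT]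
    have : ρ - n ≠ 0 := by linarith
    field_simp
  set E : ℝ := K - (ρ ^ 2 + M) / 2 with hE
  have T4 : K = ρ ^ 2 / n ^ 2 * ((n ^ 2 + n * (1 - om)) / 2 + n ^ 2 / ρ ^ 2 * E) := by
    have h1 : M = (1 - om) * ρ ^ 2 / n := by
      have : n * M = (1 - om) * ρ ^ 2 := by linarith
      rw [← this]; field_simp
    have h2 : K = (ρ ^ 2 + M) / 2 + E := by rw [hE]; ring
    rw [h2]
    have h3 : (ρ ^ 2 + M) / 2 = ρ ^ 2 / n ^ 2 * ((n ^ 2 + n * (1 - om)) / 2) := by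
      rw [h1]; field_simp
    rw [h3]
    field_simp
  rw [T1, T2, T3, ← mul_add, ← mul_add, T4] at h
  have hc : 0 < ρ ^ 2 / n ^ 2 := by positivity
  have h2 := le_of_mul_le_mul_left h hc
  set e : ℝ := n ^ 2 / ρ ^ 2 * E with he
  -- multiply by `Y`
  have h3 : ((n ^ 2 + n) / 2 - 1) * (Y - 1) + Y * (1 - om) ^ 2 + om ^ 2 * (Y - 1) * Y
      ≤ Y * ((n ^ 2 + n * (1 - om)) / 2 + e) := by
    have h4 := mul_le_mul_of_nonneg_left h2 hY0.le
    have e : Y * (((n ^ 2 + n) / 2 - 1) * (1 - 1 / Y) + (1 - om) ^ 2 + om ^ 2 * (Y - 1))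
        = ((n ^ 2 + n) / 2 - 1) * (Y - 1) + Y * (1 - om) ^ 2 + om ^ 2 * (Y - 1) * Y := by
      have : Y * (1 - 1 / Y) = Y - 1 := by field_simp
      calc Y * (((n ^ 2 + n) / 2 - 1) * (1 - 1 / Y) + (1 - om) ^ 2 + om ^ 2 * (Y - 1))
          = ((n ^ 2 + n) / 2 - 1) * (Y * (1 - 1 / Y)) + Y * (1 - om) ^ 2
            + om ^ 2 * (Y - 1) * Y := by ring
        _ = _ := by rw [this]
    rw [e] at h4
    exact h4
  have h5 : (om * Y - (n + 2) / 2) * (3 * n / 2) ≤ e * Y := by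
    nlinarith [sq_nonneg (om * Y - (n + 2) / 2)]
  have h6 : (3 * n * om - 2 * e) * Y ≤ 3 * n * ((n + 2) / 2) := by linarith
  have h7 : (3 * (ρ ^ 2 - n * M) - 4 * n * E / 2) * ((p - 1) * n ^ 2 + T)
      = (3 * n * om - 2 * e) * Y * (ρ ^ 2 * T) / n := by
    rw [← homρ, ← hYT, he]
    field_simp
    ring
  rw [h7]
  calc (3 * n * om - 2 * e) * Y * (ρ ^ 2 * T) / n ≤ 3 * n * ((n + 2) / 2) * (ρ ^ 2 * T) / n :=
        div_le_div_of_nonneg_right (mul_le_mul_of_nonneg_right h6 (by positivity)) hn0.le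
    _ = _ := by field_simp

end Pool.Agent.EI28L
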