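import Pool.Agent.EI28L.Sizes
import Pool.Agent.EI28.PlanesUpper
import Pool.Agent.EI97.UpperC
import Pool.Agent.H14SIC.RealForm

set_option autoImplicit false

/-! The exact bound for all `r ≥ 38 n`. -/

namespace Pool.Agent.EI28L

open Module Pool.Agent.H32Iso Pool.Agent.EI28 Pool.Agent.H94EI

theorem thr {k R : ℝ} (hk : 4 ≤ k) (hR : 38 ≤ R) :
    2 * (k + 2) * Real.sqrt R ≤ (k - 2) * (R - 1) := by
  have h1 : Real.sqrt R ≤ (R - 1) / 6 := by
    rw [Real.sqrt_le_left (by linarith)]
    nlinarith
  have h2 : 0 ≤ Real.sqrt R := Real.sqrt_nonneg R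
  nlinarith

theorem real38 {n r p : ℕ} (hn : 1 ≤ n) (hr : 38 * n ≤ r) (hp : p ∈ sizes ℝ n r) :
    (p : ℝ) ≤ r * (r + 2 - n) / (2 * n) := by
  have hn' : (0 : ℝ) < n := by exact_mod_cast hn
  rcases Nat.lt_or_ge n 2 with h | h
  · obtain rfl : n = 1 := by omega
    have h1 := upper_aux (F := ℝ) le_rfl (by rw [Module.finrank_self]; omega) hp
    rw [Module.finrank_self] at h1
    have h2 : (2 : ℝ) * p + r ≤ r * (r + 2) := by
      have : 2 * p + r ≤ r * (r + 2) := by linarith
      exact_mod_cast this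
    push_cast
    linarith
  rcases Nat.lt_or_ge n 3 with h | h
  · obtain rfl : n = 2 := by omega
    have h1 := planes_upper (by omega) hp
    have h2 : 4 * p ≤ r ^ 2 := by omega
    have h3 : (4 : ℝ) * p ≤ (r : ℝ) ^ 2 := by exact_mod_cast h2
    push_cast
    linarith
  rcases Nat.lt_or_ge n 4 with h | h
  · obtain rfl : n = 3 := by omega
    have h1 := Pool.Agent.EI97.three_real (by omega) hp
    have h2 : 6 * p ≤ r * (r - 1) := by omega
    have h3 : (6 : ℝ) * p ≤ (r : ℝ) * ((r : ℝ) - 1) := by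
      have h4 : ((6 * p : ℕ) : ℝ) ≤ ((r * (r - 1) : ℕ) : ℝ) := by exact_mod_cast h2
      rw [Nat.cast_mul r, Nat.cast_sub (by omega)] at h4
      push_cast at h4
      exact h4
    push_cast
    linarith
  · have h4 : (4 : ℝ) ≤ n := by exact_mod_cast h
    have hR : (38 : ℝ) ≤ (r : ℝ) / n := by
      rw [le_div_iff₀ hn']
      exact_mod_cast hr
    have := exact_sizes (F := ℝ) hn (by rw [finrank_self]; push_cast; linarith)
      (by
        rw [finrank_self]
        push_cast
        have := thr (k := (1 : ℝ) * n) (by linarith) hR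
        exact this) (by omega) hp
    rw [finrank_self] at this
    push_cast at this
    simpa using this

theorem complex38 {n r p : ℕ} (hn : 1 ≤ n) (hr : 38 * n ≤ r) (hp : p ∈ sizes ℂ n r) :
    (p : ℝ) ≤ r * (2 * r + 2 - 2 * n) / (2 * n) := by
  have hn' : (0 : ℝ) < n := by exact_mod_cast hn
  rcases Nat.lt_or_ge n 2 with h | h
  · obtain rfl : n = 1 := by omega
    have h1 := planes_upper (by omega) (realify 1 r hp)
    have h2 : 4 * p ≤ (2 * r) ^ 2 := by omega
    have h3 : (4 : ℝ) * p ≤ (2 * (r : ℝ)) ^ 2 := by exact_mod_cast h2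
    push_cast
    linarith
  · have h4 : (2 : ℝ) ≤ n := by exact_mod_cast h
    have hR : (38 : ℝ) ≤ (r : ℝ) / n := by
      rw [le_div_iff₀ hn']
      exact_mod_cast hr
    have := exact_sizes (F := ℂ) hn (by rw [Complex.finrank_real_complex]; push_cast; linarith)
      (by
        rw [Complex.finrank_real_complex]
        push_cast
        exact thr (k := (2 : ℝ) * n) (by linarith) hR) (by omega) hp
    rw [Complex.finrank_real_complex] at this
    push_cast at this
    linarith

theorem quaternion38 {n r p : ℕ} (hn : 1 ≤ n) (hr : 38 * n ≤ r)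
    (hp : p ∈ sizes (Quaternion ℝ) n r) :
    (p : ℝ) ≤ r * (4 * r + 2 - 4 * n) / (2 * n) := by
  have hn' : (0 : ℝ) < n := by exact_mod_cast hn
  have h4 : (1 : ℝ) ≤ n := by exact_mod_cast hn
  have hR : (38 : ℝ) ≤ (r : ℝ) / n := by
    rw [le_div_iff₀ hn']
    exact_mod_cast hr
  have := exact_sizes (F := Quaternion ℝ) hn
    (by rw [Quaternion.finrank_eq_four]; push_cast; linarith)
    (by
      rw [Quaternion.finrank_eq_four]
      push_cast
      exact thr (k := (4 : ℝ) * n) (by linarith) hR) (by omega) hp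
  rw [Quaternion.finrank_eq_four] at this
  push_cast at this
  linarith

end Pool.Agent.EI28L
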